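import Mathlib

/-!
Row spaces of rectangles (helper926).
-/

set_option autoImplicit false

namespace Pool.Agent.W926.LR

open Finset

variable {X Y : Type} {K : Type} [Field K]

open Classical in
/-- restriction of a function on `Y` to `S` (zero outside). -/
noncomputable def res (K : Type) [Field K] (S : Finset Y) : (Y → K) →ₗ[K] (Y → K) where
  toFun v := fun y => if y ∈ S then v y else 0
  map_add' u v := by funext y; by_cases h : y ∈ S <;> simp [h]
  map_smul' c v := by funext y; by_cases h : y ∈ S <;> simp [h]

open Classical in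
theorem res_apply (S : Finset Y) (v : Y → K) (y : Y) : res K S v y = if y ∈ S then v y else 0 := rfl

theorem res_res {S S' : Finset Y} (h : S' ⊆ S) (v : Y → K) : res K S' (res K S v) = res K S' v := by
  funext y
  simp only [res_apply]
  by_cases h1 : y ∈ S'
  · simp [h1, h h1]
  · simp [h1]

/-- a row as a vector -/
def row (K : Type) [Field K] (F : X → Y → Bool) (x : X) : Y → K := fun y => if F x y then 1 else 0

/-- The span of the rows of the rectangle `R × S` and of the constant vector. -/
noncomputable def V (K : Type) [Field K] (F : X → Y → Bool) (R : Finset X) (S : Finset Y) : Submodule K (Y → K) :=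
  Submodule.span K ((fun x => res K S (row K F x)) '' (R : Set X) ∪ {res K S 1})

/-- its dimension -/
noncomputable def dV (K : Type) [Field K] (F : X → Y → Bool) (R : Finset X) (S : Finset Y) : ℕ :=
  Module.finrank K (V K F R S)

theorem V_mono {F : X → Y → Bool} {R R' : Finset X} (S : Finset Y) (h : R' ⊆ R) :
    V K F R' S ≤ V K F R S := by
  apply Submodule.span_mono
  apply Set.union_subset_union_left
  exact Set.image_mono (by exact_mod_cast h)

theorem V_map {F : X → Y → Bool} (R : Finset X) {S S' : Finset Y} (h : S' ⊆ S) :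
    (V K F R S).map (res K S') = V K F R S' := by
  unfold V
  rw [Submodule.map_span, Set.image_union, Set.image_singleton, Set.image_image]
  simp only [res_res h]

theorem row_mem {F : X → Y → Bool} {R : Finset X} (S : Finset Y) {x : X} (hx : x ∈ R) :
    res K S (row K F x) ∈ V K F R S :=
  Submodule.subset_span (Or.inl ⟨x, by exact_mod_cast hx, rfl⟩)

theorem one_mem {F : X → Y → Bool} (R : Finset X) (S : Finset Y) :
    res K S 1 ∈ V K F R S := Submodule.subset_span (Or.inr rfl)

theorem finrank_map_add {W W' : Type} [AddCommGroup W] [Module K W] [FiniteDimensional K W]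
    [AddCommGroup W'] [Module K W']
    (f : W →ₗ[K] W') (p : Submodule K W) :
    Module.finrank K (p.map f) + Module.finrank K (p ⊓ LinearMap.ker f : Submodule K W) =
      Module.finrank K p := by
  have h := LinearMap.finrank_range_add_finrank_ker (f.domRestrict p)
  have h1 : LinearMap.range (f.domRestrict p) = p.map f := by
    rw [LinearMap.range_domRestrict]
  rw [h1] at h
  rw [← h]
  congr 1
  have h2 : (LinearMap.ker (f.domRestrict p)).map p.subtype = p ⊓ LinearMap.ker f := by
    ext x
    simp only [Submodule.mem_map, LinearMap.mem_ker, LinearMap.domRestrict_apply,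
      Submodule.subtype_apply, Subtype.exists, exists_and_left, exists_prop, Submodule.mem_inf]
    constructor
    · rintro ⟨a, ha, hp, rfl⟩; exact ⟨hp, ha⟩
    · rintro ⟨hp, ha⟩; exact ⟨x, ha, hp, rfl⟩
  rw [← h2]
  exact (Submodule.finrank_map_subtype_eq p _)

variable [Fintype Y]

theorem dV_mono_left {F : X → Y → Bool} {R R' : Finset X} (S : Finset Y) (h : R' ⊆ R) :
    dV K F R' S ≤ dV K F R S := Submodule.finrank_mono (V_mono S h)

theorem dV_mono_right {F : X → Y → Bool} (R : Finset X) {S S' : Finset Y} (h : S' ⊆ S) :
    dV K F R S' ≤ dV K F R S := by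
  unfold dV
  rw [← V_map R h]
  exact Submodule.finrank_map_le _ _

/-- The dimension halves on one side of a constant rectangle. -/
theorem dV_split {F : X → Y → Bool} {R R' : Finset X} {S S' : Finset Y} (hR : R' ⊆ R)
    (hS : S' ⊆ S) (b : Bool) (hb : ∀ x ∈ R', ∀ y ∈ S', F x y = b) :
    dV K F R' S + dV K F R S' ≤ dV K F R S + 1 := by
  have h1 := finrank_map_add (res K S') (V K F R S)
  have h2 := finrank_map_add (res K S') (V K F R' S)
  rw [V_map R hS] at h1
  rw [V_map R' hS] at h2
  have h3 : Module.finrank K (V K F R' S') ≤ 1 := by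
    have h4 : V K F R' S' ≤ Submodule.span K {res K S' 1} := by
      unfold V
      rw [Submodule.span_le]
      rintro v (⟨x, hx, rfl⟩ | hv)
      · have hx' : x ∈ R' := by exact_mod_cast hx
        rw [SetLike.mem_coe, Submodule.mem_span_singleton]
        refine ⟨if b then 1 else 0, ?_⟩
        funext y
        simp only [Pi.smul_apply, smul_eq_mul, res_apply, row, Pi.one_apply]
        by_cases hy : y ∈ S'
        · simp [hy, hb x hx' y hy]
        · simp [hy]
      · rw [Set.mem_singleton_iff] at hv
        rw [hv]
        exact Submodule.mem_span_singleton_self _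
    refine (Submodule.finrank_mono h4).trans ?_
    have := finrank_span_le_card (R := K) ({res K S' (1 : Y → K)} : Set (Y → K))
    simpa using this
  have h5 : Module.finrank K (V K F R' S ⊓ LinearMap.ker (res K S') : Submodule K (Y → K)) ≤
      Module.finrank K (V K F R S ⊓ LinearMap.ker (res K S') : Submodule K (Y → K)) :=
    Submodule.finrank_mono (inf_le_inf_right _ (V_mono S hR))
  unfold dV
  omega

/-- Dimension at most one: the rows are constant. -/
theorem const_of_dV {F : X → Y → Bool} {R : Finset X} {S : Finset Y} (h : dV K F R S ≤ 1)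
    {x : X} (hx : x ∈ R) {y y' : Y} (hy : y ∈ S) (hy' : y' ∈ S) : F x y = F x y' := by
  have h0 : (res K S (1 : Y → K)) ≠ 0 := by
    intro h0
    have := congrFun h0 y
    simp [res_apply, hy] at this
  have h1 : Submodule.span K {res K S (1 : Y → K)} = V K F R S := by
    apply Submodule.eq_of_le_of_finrank_le
    · rw [Submodule.span_singleton_le_iff_mem]
      exact one_mem R S
    · rw [finrank_span_singleton h0]
      exact h
  have h2 := row_mem (K := K) (F := F) S hx
  rw [← h1, Submodule.mem_span_singleton] at h2
  obtain ⟨a, ha⟩ := h2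
  have e1 := congrFun ha y
  have e2 := congrFun ha y'
  simp only [Pi.smul_apply, smul_eq_mul, res_apply, row, Pi.one_apply, hy, hy', if_true,
    mul_one] at e1 e2
  rw [e1] at e2
  cases h3 : F x y <;> cases h4 : F x y' <;> simp [h3, h4] at e2 ⊢

/-- Few generators. -/
theorem exists_few {W ι : Type} [AddCommGroup W] [Module K W] [FiniteDimensional K W]
    (R : Finset ι) (g : ι → W) (D : ℕ)
    (hD : Module.finrank K (Submodule.span K (g '' (R : Set ι))) ≤ D) :
    ∃ B ⊆ R, B.card ≤ D ∧ ∀ x ∈ R, g x ∈ Submodule.span K (g '' (B : Set ι)) := by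
  classical
  obtain ⟨b, hb, hsp, hli⟩ := exists_linearIndependent K (g '' (R : Set ι))
  have hfin : b.Finite := (R.finite_toSet.image g).subset hb
  have hfb : Fintype b := hfin.fintype
  have hcard : Fintype.card b ≤ D := by
    rw [← hsp] at hD
    have := finrank_span_eq_card hli
    rw [Subtype.range_coe] at this
    rw [this] at hD
    convert hD
  choose pre hpre1 hpre2 using fun v : b => hb v.2
  refine ⟨Finset.univ.image pre, ?_, (Finset.card_image_le).trans (by simpa using hcard), ?_⟩
  · intro x hx
    obtain ⟨v, -, rfl⟩ := Finset.mem_image.1 hx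
    exact_mod_cast hpre1 v
  · intro x hx
    have h1 : g x ∈ Submodule.span K b := by
      rw [hsp]; exact Submodule.subset_span ⟨x, by exact_mod_cast hx, rfl⟩
    refine Submodule.span_mono ?_ h1
    intro v hv
    exact ⟨pre ⟨v, hv⟩, by simp, hpre2 ⟨v, hv⟩⟩

/-- A cluster of rows contains a large constant rectangle. -/
theorem cluster_rect {F : X → Y → Bool} {R : Finset X} {S : Finset Y} {D : ℕ}
    (hD : dV K F R S ≤ D) (hD1 : 1 ≤ D) (c : X)
    (hc : ∀ x ∈ R, 4 * D * (S.filter fun y => F x y ≠ F c y).card ≤ S.card) :
    ∃ (b : Bool) (S' : Finset Y), S' ⊆ S ∧ S.card ≤ 4 * S'.card ∧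
      ∀ x ∈ R, ∀ y ∈ S', F x y = b := by
  classical
  obtain ⟨b, hb⟩ : ∃ b : Bool, S.card ≤ 2 * (S.filter fun y => F c y = b).card := by
    by_contra hcon
    push Not at hcon
    have h1 := hcon true
    have h2 := hcon false
    have h3 : S.card = (S.filter fun y => F c y = true).card +
        (S.filter fun y => F c y = false).card := by
      rw [← Finset.card_union_of_disjoint]
      · congr 1
        ext y
        simp only [mem_union, mem_filter]
        cases F c y <;> simp
      · rw [Finset.disjoint_filter]
        intro y _ h; simp [h]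
    omega
  set Sb := S.filter fun y => F c y = b with hSb
  have hSbS : Sb ⊆ S := Finset.filter_subset _ _
  let g : X → (Y → K) := fun x => res K Sb (row K F x) - (if b then (1 : K) else 0) • res K Sb 1
  have hg : Module.finrank K (Submodule.span K (g '' (R : Set X))) ≤ D := by
    refine le_trans (Submodule.finrank_mono ?_) ((dV_mono_right R hSbS).trans hD)
    rw [Submodule.span_le]
    rintro _ ⟨x, hx, rfl⟩
    exact Submodule.sub_mem _ (row_mem Sb (by exact_mod_cast hx))
      (Submodule.smul_mem _ _ (one_mem R Sb))
  obtain ⟨B, hBR, hBc, hB⟩ := exists_few R g D hg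
  have hgval : ∀ x, ∀ y ∈ Sb, (g x y = 0 ↔ F x y = b) := by
    intro x y hy
    simp only [g, Pi.sub_apply, Pi.smul_apply, res_apply, hy, if_true, row, Pi.one_apply,
      smul_eq_mul, mul_one]
    cases h1 : F x y <;> cases b <;> simp
  refine ⟨b, Sb.filter fun y => ∀ x ∈ B, F x y = b,
    (Finset.filter_subset _ _).trans hSbS, ?_, ?_⟩
  · have h1 : Sb ⊆ (Sb.filter fun y => ∀ x ∈ B, F x y = b) ∪
        B.biUnion (fun x => S.filter fun y => F x y ≠ F c y) := by
      intro y hy
      rw [Finset.mem_union]
      by_cases h : ∀ x ∈ B, F x y = b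
      · left; exact Finset.mem_filter.2 ⟨hy, h⟩
      · right
        push Not at h
        obtain ⟨x, hx, hxy⟩ := h
        rw [Finset.mem_biUnion]
        refine ⟨x, hx, Finset.mem_filter.2 ⟨hSbS hy, ?_⟩⟩
        rw [(Finset.mem_filter.1 hy).2]
        exact hxy
    have h2 := (Finset.card_le_card h1).trans (Finset.card_union_le _ _)
    have h3 : 4 * D * (B.biUnion (fun x => S.filter fun y => F x y ≠ F c y)).card ≤
        D * S.card := by
      calc 4 * D * (B.biUnion (fun x => S.filter fun y => F x y ≠ F c y)).card
          ≤ 4 * D * ∑ x ∈ B, (S.filter fun y => F x y ≠ F c y).card :=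
            Nat.mul_le_mul_left _ Finset.card_biUnion_le
        _ = ∑ x ∈ B, 4 * D * (S.filter fun y => F x y ≠ F c y).card := by rw [Finset.mul_sum]
        _ ≤ ∑ x ∈ B, S.card := Finset.sum_le_sum fun x hx => hc x (hBR hx)
        _ = B.card * S.card := by rw [Finset.sum_const, smul_eq_mul]
        _ ≤ D * S.card := Nat.mul_le_mul_right _ hBc
    have h4 : 4 * (B.biUnion (fun x => S.filter fun y => F x y ≠ F c y)).card ≤ S.card := by
      have : D * (4 * (B.biUnion (fun x => S.filter fun y => F x y ≠ F c y)).card) ≤
          D * S.card := by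
        calc _ = 4 * D * (B.biUnion (fun x => S.filter fun y => F x y ≠ F c y)).card := by ring
          _ ≤ _ := h3
      exact Nat.le_of_mul_le_mul_left this (by omega)
    omega
  · intro x hx y hy
    obtain ⟨hySb, hyB⟩ := Finset.mem_filter.1 hy
    rw [← hgval x y hySb]
    have h1 := hB x hx
    have h2 : Submodule.span K (g '' (B : Set X)) ≤
        LinearMap.ker (LinearMap.proj (R := K) (φ := fun _ : Y => K) y) := by
      rw [Submodule.span_le]
      rintro _ ⟨x', hx', rfl⟩
      rw [SetLike.mem_coe, LinearMap.mem_ker, LinearMap.proj_apply]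
      exact (hgval x' y hySb).2 (hyB x' (by exact_mod_cast hx'))
    have h3 := h2 h1
    rwa [LinearMap.mem_ker, LinearMap.proj_apply] at h3

end Pool.Agent.W926.LR
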