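import Pool.Agent.H671S.Packing

/-!
Packing for Boolean matrices of bounded VC dimension, with explicit constants (helper926).
-/

set_option autoImplicit false

namespace Pool.Agent.W926.LR

open Finset

variable {X Y : Type}

/-- The rows of `F` shatter the set `A` of columns. -/
def Shat (F : X → Y → Bool) (A : Finset Y) : Prop := ∀ p : Y → Bool, ∃ x, ∀ y ∈ A, F x y = p y

/-- The VC dimension of the family of rows is at most `d`. -/
def VCle (F : X → Y → Bool) (d : ℕ) : Prop := ∀ A : Finset Y, Shat F A → A.card ≤ d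

theorem noShatter {F : X → Y → Bool} {d : ℕ} (h : VCle F d) :
    Pool.Agent.H671S.NoShatter (Set.range fun x => {y | F x y = true}) (d + 1) := by
  classical
  intro A hA
  have h1 : ¬ Shat F A := fun h2 => by have := h A h2; omega
  unfold Shat at h1
  push Not at h1
  obtain ⟨p, hp⟩ := h1
  refine ⟨A.filter fun y => p y = true, Finset.filter_subset _ _, ?_⟩
  rintro _ ⟨x, rfl⟩ hcon
  obtain ⟨y, hy, hxy⟩ := hp x
  have := hcon y hy
  simp only [mem_filter, hy, true_and, Set.mem_setOf_eq] at this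
  apply hxy
  cases h1 : F x y <;> cases h2 : p y <;> simp [h1, h2] at this ⊢

theorem pack {F : X → Y → Bool} {d : ℕ} (hF : VCle F d) (S : Finset Y) (hS : S.Nonempty)
    (q m : ℕ) (P : Finset X)
    (hsep : ∀ x ∈ P, ∀ x' ∈ P, x ≠ x' → S.card ≤ q * (S.filter fun y => F x y ≠ F x' y).card)
    (hm : P.card ^ 2 * (q - 1) ^ m < q ^ m) : P.card ≤ (m + 1) ^ (d + 1) := by
  classical
  have hex : ∃ s : Fin m → S, ∀ x ∈ P, ∀ x' ∈ P, x ≠ x' → ∃ l, F x (s l) ≠ F x' (s l) := by
    by_contra hno
    push Not at hno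
    have hcov : (Finset.univ : Finset (Fin m → S)) ⊆
        ((P ×ˢ P).filter fun p => p.1 ≠ p.2).biUnion
        (fun p => Fintype.piFinset fun _ : Fin m =>
          Finset.univ.filter fun l : S => F p.1 l = F p.2 l) := by
      intro s _
      obtain ⟨x, hx, x', hx', hne, h⟩ := hno s
      rw [Finset.mem_biUnion]
      refine ⟨(x, x'), ?_, ?_⟩
      · simp [hx, hx', hne]
      · rw [Fintype.mem_piFinset]
        intro l
        simpa using h l
    have hc := (Finset.card_le_card hcov).trans Finset.card_biUnion_le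
    have hbound : ∀ p ∈ ((P ×ˢ P).filter fun p => p.1 ≠ p.2),
        q ^ m * (Fintype.piFinset fun _ : Fin m =>
          Finset.univ.filter fun l : S => F p.1 l = F p.2 l).card ≤ ((q - 1) * S.card) ^ m := by
      intro p hp
      rw [Finset.mem_filter, Finset.mem_product] at hp
      obtain ⟨⟨hp1, hp2⟩, hp3⟩ := hp
      rw [Fintype.card_piFinset, Finset.prod_const, Finset.card_univ, Fintype.card_fin,
        ← mul_pow]
      apply Nat.pow_le_pow_left
      have h1 := hsep p.1 hp1 p.2 hp2 hp3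
      have h2 : (Finset.univ.filter fun l : S => F p.1 l = F p.2 l).card =
          (S.filter fun y => F p.1 y = F p.2 y).card := by
        rw [← Finset.card_map (Function.Embedding.subtype _)]
        congr 1
        ext y
        simp only [mem_map, mem_filter, mem_univ, true_and, Function.Embedding.subtype_apply,
          Subtype.exists, exists_and_left, exists_prop, exists_eq_right_right]
        tauto
      have h3 : (S.filter fun y => F p.1 y = F p.2 y).card +
          (S.filter fun y => F p.1 y ≠ F p.2 y).card = S.card := by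
        exact Finset.card_filter_add_card_filter_not _
      rw [h2]
      rcases Nat.eq_zero_or_pos q with rfl | hq
      · simp
      · obtain ⟨q', rfl⟩ : ∃ q', q = q' + 1 := ⟨q - 1, by omega⟩
        simp only [Nat.add_sub_cancel]
        nlinarith
    have hpairs : ((P ×ˢ P).filter fun p => p.1 ≠ p.2).card ≤ P.card ^ 2 := by
      refine (Finset.card_filter_le _ _).trans ?_
      rw [Finset.card_product, sq]
    have e1 : (Finset.univ : Finset (Fin m → S)).card = S.card ^ m := by
      rw [Finset.card_univ, Fintype.card_fun, Fintype.card_fin, Fintype.card_coe]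
    have h1 : q ^ m * S.card ^ m ≤ P.card ^ 2 * ((q - 1) * S.card) ^ m := by
      calc q ^ m * S.card ^ m ≤ q ^ m * ∑ p ∈ ((P ×ˢ P).filter fun p => p.1 ≠ p.2),
            (Fintype.piFinset fun _ : Fin m =>
              Finset.univ.filter fun l : S => F p.1 l = F p.2 l).card := by
            rw [← e1]; exact Nat.mul_le_mul_left _ hc
        _ = ∑ p ∈ ((P ×ˢ P).filter fun p => p.1 ≠ p.2), q ^ m *
            (Fintype.piFinset fun _ : Fin m =>
              Finset.univ.filter fun l : S => F p.1 l = F p.2 l).card := by rw [Finset.mul_sum]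
        _ ≤ ∑ p ∈ ((P ×ˢ P).filter fun p => p.1 ≠ p.2), ((q - 1) * S.card) ^ m :=
            Finset.sum_le_sum hbound
        _ ≤ P.card ^ 2 * ((q - 1) * S.card) ^ m := by
            rw [Finset.sum_const, smul_eq_mul]
            exact Nat.mul_le_mul_right _ hpairs
    have hSpos : 0 < S.card ^ m := pow_pos (Finset.card_pos.2 hS) m
    rw [mul_pow, ← mul_assoc] at h1
    have := Nat.le_of_mul_le_mul_right h1 hSpos
    omega
  obtain ⟨s, hs⟩ := hex
  let e := P.equivFin.symm
  refine Pool.Agent.H671S.card_lt_of_noShatter (noShatter hF) (fun l => (s l : Y))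
    (fun j : Fin P.card => {y | F (e j) y = true}) (fun j => ⟨_, rfl⟩) ?_
  intro i j hij
  obtain ⟨l, hl⟩ := hs (e i) (e i).2 (e j) (e j).2 (by
    intro h
    exact hij (e.injective (Subtype.ext h)))
  refine ⟨l, ?_⟩
  simp only [Set.mem_setOf_eq]
  intro h
  apply hl
  cases h1 : F (e i) (s l) <;> cases h2 : F (e j) (s l) <;> simp [h1, h2] at h ⊢

theorem bernoulli (q : ℕ) (hq : 1 ≤ q) : 2 * (q - 1) ^ q ≤ q ^ q := by
  obtain ⟨p, rfl⟩ : ∃ p, q = p + 1 := ⟨q - 1, by omega⟩
  simp only [Nat.add_sub_cancel]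
  have key : ∀ n : ℕ, n * p ^ (n - 1) + p ^ n ≤ (p + 1) ^ n := by
    intro n
    induction n with
    | zero => simp
    | succ n ih =>
      rcases Nat.eq_zero_or_pos n with rfl | hn
      · simp; omega
      · obtain ⟨k, rfl⟩ : ∃ k, n = k + 1 := ⟨n - 1, by omega⟩
        simp only [Nat.add_sub_cancel] at ih ⊢
        calc (k + 1 + 1) * p ^ (k + 1) + p ^ (k + 1 + 1)
            ≤ ((k + 1) * p ^ k + p ^ (k + 1)) * (p + 1) := by
              have : (k + 1) * p ^ k * (p + 1) = (k + 1) * p ^ (k + 1) + (k + 1) * p ^ k := by ring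
              have h2 : p ^ (k + 1) * (p + 1) = p ^ (k + 1 + 1) + p ^ (k + 1) := by ring
              rw [add_mul ((k + 1) * p ^ k), this, h2]
              have h3 : (k + 1 + 1) * p ^ (k + 1) = (k + 1) * p ^ (k + 1) + p ^ (k + 1) := by ring
              omega
          _ ≤ (p + 1) ^ (k + 1) * (p + 1) := Nat.mul_le_mul_right _ ih
          _ = (p + 1) ^ (k + 1 + 1) := by ring
  have h := key (p + 1)
  simp only [Nat.add_sub_cancel] at h
  have h2 : p ^ (p + 1) ≤ (p + 1) * p ^ p := by
    rw [pow_succ, mul_comm]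
    exact Nat.mul_le_mul_right _ (by omega)
  omega

/-- Arithmetic for the packing lemma. -/
theorem arith (q k l : ℕ) (hl : 1 ≤ l) (hq : q ≤ 2 ^ l) (hk : k ≤ 2 ^ l) :
    2 * q * (k * (8 * l) + 1) + 1 ≤ 2 ^ (8 * l) := by
  have h1 : l + 1 ≤ 2 ^ l := Nat.lt_two_pow_self
  have hx : 2 ≤ 2 ^ l := by
    calc 2 = 2 ^ 1 := by norm_num
      _ ≤ 2 ^ l := Nat.pow_le_pow_right (by norm_num) hl
  set x := 2 ^ l with hxdef
  have e : 2 ^ (8 * l) = x ^ 8 := by rw [hxdef, ← pow_mul]; ring_nf
  rw [e]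
  have h2 : 2 * q * (k * (8 * l) + 1) + 1 ≤ 2 * x * (x * (8 * x) + 1) + 1 := by
    gcongr
    omega
  refine h2.trans ?_
  have h3 : 32 * x ^ 3 ≤ x ^ 8 := by
    have : 32 ≤ x ^ 5 := by
      calc 32 = 2 ^ 5 := by norm_num
        _ ≤ x ^ 5 := Nat.pow_le_pow_left hx 5
    calc 32 * x ^ 3 ≤ x ^ 5 * x ^ 3 := Nat.mul_le_mul_right _ this
      _ = x ^ 8 := by ring
  have h4 : 2 * x * (x * (8 * x) + 1) + 1 ≤ 32 * x ^ 3 := by
    have h5 : 2 * x * (x * (8 * x) + 1) + 1 = 16 * x ^ 3 + 2 * x + 1 := by ring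
    rw [h5]
    have h6 : x ≤ x ^ 3 := Nat.le_self_pow (by norm_num) x
    have h7 : 1 ≤ x ^ 3 := Nat.one_le_pow _ _ (by omega)
    omega
  exact h4.trans h3

/-- Separated families have at most `2 ^ (8 (d + 1) l)` members. -/
theorem pack' {F : X → Y → Bool} {d : ℕ} (hF : VCle F d) (S : Finset Y) (hS : S.Nonempty)
    (q l : ℕ) (hq1 : 1 ≤ q) (hl : 1 ≤ l) (hq : q ≤ 2 ^ l) (hd : d + 1 ≤ 2 ^ l) (P : Finset X)
    (hsep : ∀ x ∈ P, ∀ x' ∈ P, x ≠ x' → S.card ≤ q * (S.filter fun y => F x y ≠ F x' y).card) :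
    P.card ≤ 2 ^ (8 * (d + 1) * l) := by
  classical
  by_contra hcon
  push Not at hcon
  set U := 8 * (d + 1) * l with hU
  obtain ⟨P', hP', hcard⟩ := Finset.exists_subset_card_eq (show 2 ^ U + 1 ≤ P.card by omega)
  have hU1 : 1 ≤ U := by
    have : 0 < 8 * (d + 1) * l := by positivity
    omega
  have h2U : 2 ≤ 2 ^ U := by
    calc 2 = 2 ^ 1 := by norm_num
      _ ≤ 2 ^ U := Nat.pow_le_pow_right (by norm_num) hU1
  have h := pack hF S hS q (q * (2 * (U + 1))) P' (fun x hx x' hx' => hsep x (hP' hx) x' (hP' hx'))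
    (by
      rw [hcard, pow_mul (q - 1) q, pow_mul q q]
      have h1 := bernoulli q hq1
      have h2 : (2 * (q - 1) ^ q) ^ (2 * (U + 1)) ≤ (q ^ q) ^ (2 * (U + 1)) :=
        Nat.pow_le_pow_left h1 _
      rw [mul_pow] at h2
      rcases Nat.eq_zero_or_pos (((q - 1) ^ q) ^ (2 * (U + 1))) with h0 | h0
      · rw [h0, mul_zero]
        exact pow_pos (pow_pos (by omega) _) _
      · refine lt_of_lt_of_le ?_ h2
        apply Nat.mul_lt_mul_of_pos_right _ h0
        have e : 2 ^ (2 * (U + 1)) = (2 * 2 ^ U) ^ 2 := by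
          rw [mul_comm 2 (U + 1), pow_mul]; ring
        rw [e]
        exact Nat.pow_lt_pow_left (by omega) (by norm_num))
  rw [hcard] at h
  have h3 : (q * (2 * (U + 1)) + 1) ^ (d + 1) ≤ 2 ^ U := by
    have h4 := arith q (d + 1) l hl hq hd
    have e1 : q * (2 * (U + 1)) + 1 = 2 * q * ((d + 1) * (8 * l) + 1) + 1 := by
      rw [hU]; ring
    have e2 : 2 ^ U = (2 ^ (8 * l)) ^ (d + 1) := by
      rw [← pow_mul, hU]; ring_nf
    rw [e1, e2]
    exact Nat.pow_le_pow_left h4 _
  omega

/-- A large cluster. -/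
theorem cluster {F : X → Y → Bool} {d : ℕ} (hF : VCle F d) (R : Finset X) (hR : R.Nonempty)
    (S : Finset Y) (hS : S.Nonempty)
    (q l : ℕ) (hq1 : 1 ≤ q) (hl : 1 ≤ l) (hq : q ≤ 2 ^ l) (hd : d + 1 ≤ 2 ^ l) :
    ∃ (c : X) (R' : Finset X), R' ⊆ R ∧ R.card ≤ 2 ^ (8 * (d + 1) * l) * R'.card ∧
      ∀ x ∈ R', q * (S.filter fun y => F x y ≠ F c y).card ≤ S.card := by
  classical
  -- a maximal separated family
  let sep : Finset X → Prop := fun P => P ⊆ R ∧ ∀ x ∈ P, ∀ x' ∈ P, x ≠ x' →
    S.card < q * (S.filter fun y => F x y ≠ F x' y).card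
  have hfin : (R.powerset.filter sep).Nonempty := by
    refine ⟨∅, Finset.mem_filter.2 ⟨Finset.empty_mem_powerset _, Finset.empty_subset _, ?_⟩⟩
    intro x hx; simp at hx
  obtain ⟨P, hP, hmax⟩ := Finset.exists_max_image (R.powerset.filter sep) Finset.card hfin
  rw [Finset.mem_filter] at hP
  obtain ⟨-, hPR, hPsep⟩ := hP
  have hcardP : P.card ≤ 2 ^ (8 * (d + 1) * l) :=
    pack' hF S hS q l hq1 hl hq hd P fun x hx x' hx' hne => (hPsep x hx x' hx' hne).le
  have hcover : ∀ x ∈ R, ∃ p ∈ P, q * (S.filter fun y => F x y ≠ F p y).card ≤ S.card := by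
    intro x hx
    by_contra hcon
    push Not at hcon
    have hxP : x ∉ P := by
      intro h
      have := hcon x h
      simp at this
    have hsym : ∀ a b : X, (S.filter fun y => F a y ≠ F b y) = S.filter fun y => F b y ≠ F a y := by
      intro a b
      ext y
      simp only [mem_filter, and_congr_right_iff]
      intro _
      exact ne_comm
    have : sep (insert x P) := by
      refine ⟨Finset.insert_subset hx hPR, ?_⟩
      intro a ha b hb hab
      rw [Finset.mem_insert] at ha hb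
      rcases ha with rfl | ha <;> rcases hb with rfl | hb
      · exact absurd rfl hab
      · exact hcon b hb
      · rw [hsym]; exact hcon a ha
      · exact hPsep a ha b hb hab
    have h1 := hmax (insert x P) (Finset.mem_filter.2 ⟨Finset.mem_powerset.2 this.1, this⟩)
    rw [Finset.card_insert_of_notMem hxP] at h1
    omega
  -- pigeonhole
  have hsum : R.card ≤ ∑ p ∈ P, (R.filter fun x =>
      q * (S.filter fun y => F x y ≠ F p y).card ≤ S.card).card := by
    refine le_trans (Finset.card_le_card ?_) Finset.card_biUnion_le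
    intro x hx
    obtain ⟨p, hp, h⟩ := hcover x hx
    exact Finset.mem_biUnion.2 ⟨p, hp, Finset.mem_filter.2 ⟨hx, h⟩⟩
  have hPne : P.Nonempty := by
    obtain ⟨x, hx⟩ := hR
    obtain ⟨p, hp, -⟩ := hcover x hx
    exact ⟨p, hp⟩
  obtain ⟨p, hp, hpmax⟩ := Finset.exists_max_image P (fun p => (R.filter fun x =>
      q * (S.filter fun y => F x y ≠ F p y).card ≤ S.card).card) hPne
  refine ⟨p, R.filter fun x => q * (S.filter fun y => F x y ≠ F p y).card ≤ S.card,
    Finset.filter_subset _ _, ?_, fun x hx => (Finset.mem_filter.1 hx).2⟩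
  refine hsum.trans ?_
  calc _ ≤ ∑ p' ∈ P, (R.filter fun x =>
      q * (S.filter fun y => F x y ≠ F p y).card ≤ S.card).card := Finset.sum_le_sum hpmax
    _ = P.card * _ := by rw [Finset.sum_const, smul_eq_mul]
    _ ≤ _ := Nat.mul_le_mul_right _ hcardP

end Pool.Agent.W926.LR
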