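import Pool.Agent.W926.LR.Tree
import Pool.Agent.W926.LR.Lin
import Pool.Agent.W926.LR.Pack

/-!
The protocol tree of a Boolean matrix of bounded VC dimension and small rank (helper926).
-/

set_option autoImplicit false

namespace Pool.Agent.W926.LR

open Finset

variable {X Y : Type} {K : Type} [Field K] [Fintype Y]

/-- there is a tree with at most `N` leaves that is correct on `R × S` -/
def Good (F : X → Y → Bool) (R : Finset X) (S : Finset Y) (N : ℕ) : Prop :=
  ∃ t : T X Y, (∀ x ∈ R, ∀ y ∈ S, t.ev x y = F x y) ∧ t.lv ≤ N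

omit [Fintype Y] in
theorem Good.mono {F : X → Y → Bool} {R : Finset X} {S : Finset Y} {N N' : ℕ} (h : Good F R S N)
    (hN : N ≤ N') : Good F R S N' := by
  obtain ⟨t, h1, h2⟩ := h
  exact ⟨t, h1, h2.trans hN⟩

theorem good_one {F : X → Y → Bool} {R : Finset X} {S : Finset Y} (h : dV K F R S ≤ 1) :
    Good F R S 2 := by
  rcases S.eq_empty_or_nonempty with rfl | ⟨y0, hy0⟩
  · exact ⟨T.leaf true, fun x _ y hy => by simp at hy, by simp [T.lv]⟩
  · refine ⟨T.al (fun x => F x y0) (T.leaf false) (T.leaf true), fun x hx y hy => ?_, by simp [T.lv]⟩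
    rw [const_of_dV h hx hy hy0]
    cases h1 : F x y0 <;> simp [T.ev, h1]

omit [Fintype Y] in
open Classical in
theorem good_al {F : X → Y → Bool} {R R' : Finset X} {S : Finset Y} {a b : ℕ}
    (h1 : Good F R' S a) (h2 : Good F (R \ R') S b) : Good F R S (a + b) := by
  obtain ⟨t, ht, hta⟩ := h1
  obtain ⟨s, hs, hsb⟩ := h2
  refine ⟨T.al (fun x => decide (x ∈ R')) s t, fun x hx y hy => ?_, by simp only [T.lv]; omega⟩
  by_cases hx' : x ∈ R'
  · simp [T.ev, hx', ht x hx' y hy]
  · simp [T.ev, hx', hs x (Finset.mem_sdiff.2 ⟨hx, hx'⟩) y hy]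

omit [Fintype Y] in
open Classical in
theorem good_bo {F : X → Y → Bool} {R : Finset X} {S S' : Finset Y} {a b : ℕ}
    (h1 : Good F R S' a) (h2 : Good F R (S \ S') b) : Good F R S (a + b) := by
  obtain ⟨t, ht, hta⟩ := h1
  obtain ⟨s, hs, hsb⟩ := h2
  refine ⟨T.bo (fun y => decide (y ∈ S')) s t, fun x hx y hy => ?_, by simp only [T.lv]; omega⟩
  by_cases hy' : y ∈ S'
  · simp [T.ev, hy', ht x hx y hy']
  · simp [T.ev, hy', hs x hx y (Finset.mem_sdiff.2 ⟨hy, hy'⟩)]

/-- Every rectangle contains a large constant rectangle. -/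
theorem rect {F : X → Y → Bool} {d : ℕ} (hF : VCle F d) {D l : ℕ} (hD1 : 1 ≤ D) (hl : 1 ≤ l)
    (hD : 4 * D ≤ 2 ^ l) (hd : d + 1 ≤ 2 ^ l) (R : Finset X) (S : Finset Y)
    (hR : R.Nonempty) (hS : S.Nonempty) (hV : dV K F R S ≤ D) :
    ∃ (b : Bool) (R' : Finset X) (S' : Finset Y), R' ⊆ R ∧ S' ⊆ S ∧
      R.card ≤ 2 ^ (8 * (d + 1) * l) * R'.card ∧ S.card ≤ 4 * S'.card ∧
      ∀ x ∈ R', ∀ y ∈ S', F x y = b := by
  obtain ⟨c, R', hR', hcard, hc⟩ := cluster hF R hR S hS (4 * D) l (by omega) hl hD hd
  obtain ⟨b, S', hS', hcard', hb⟩ := cluster_rect ((dV_mono_left S hR').trans hV) hD1 c hc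
  exact ⟨b, R', S', hR', hS', hcard, hcard', hb⟩

/-- The recursion. -/
theorem levels {F : X → Y → Bool} {d : ℕ} (hF : VCle F d) {D l : ℕ} (hD1 : 1 ≤ D) (hl : 1 ≤ l)
    (hD : 4 * D ≤ 2 ^ l) (hd : d + 1 ≤ 2 ^ l) (β : ℝ)
    (hβ : β = 1 - 1 / 2 ^ (8 * (d + 1) * l)) (N : ℕ) :
    ∀ (k : ℕ) (R : Finset X) (S : Finset Y), dV K F R S ≤ D → dV K F R S ≤ 2 ^ k →
      (R.card : ℝ) * S.card * β ^ N < 1 → Good F R S (2 * (N + 1) ^ k) := by
  classical
  have hU2 : (4 : ℝ) ≤ 2 ^ (8 * (d + 1) * l) := by
    calc (4 : ℝ) = 2 ^ 2 := by norm_num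
      _ ≤ 2 ^ (8 * (d + 1) * l) := by
        apply pow_le_pow_right₀ (by norm_num)
        nlinarith
  have hinv : (1 : ℝ) / 2 ^ (8 * (d + 1) * l) ≤ 1 / 4 := by
    apply one_div_le_one_div_of_le (by norm_num) hU2
  have hinv0 : (0 : ℝ) < 1 / 2 ^ (8 * (d + 1) * l) := by positivity
  have hβ0 : 3 / 4 ≤ β := by rw [hβ]; linarith
  have hβ1 : β ≤ 1 := by rw [hβ]; linarith
  intro k
  induction k with
  | zero =>
    intro R S _ h _
    simpa using good_one (by simpa using h)
  | succ k ih =>
    have inner : ∀ (n : ℕ), n ≤ N → ∀ (R : Finset X) (S : Finset Y), dV K F R S ≤ D →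
        dV K F R S ≤ 2 ^ (k + 1) → (R.card : ℝ) * S.card * β ^ n < 1 →
        Good F R S (1 + n * (2 * (N + 1) ^ k)) := by
      intro n
      induction n with
      | zero =>
        intro _ R S _ _ h
        have h0 : R.card * S.card < 1 := by
          have : ((R.card * S.card : ℕ) : ℝ) < 1 := by push_cast; simpa using h
          exact_mod_cast this
        have h1 : R.card = 0 ∨ S.card = 0 := by
          rw [← Nat.mul_eq_zero]; omega
        refine ⟨T.leaf true, fun x hx y hy => ?_, by simp [T.lv]⟩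
        rcases h1 with h1 | h1
        · rw [Finset.card_eq_zero] at h1; rw [h1] at hx; simp at hx
        · rw [Finset.card_eq_zero] at h1; rw [h1] at hy; simp at hy
      | succ n ihn =>
        intro hn R S hRD hRk hfuel
        rcases R.eq_empty_or_nonempty with hR | hR
        · refine ⟨T.leaf true, fun x hx y hy => ?_, by simp [T.lv]⟩
          rw [hR] at hx; simp at hx
        rcases S.eq_empty_or_nonempty with hS | hS
        · refine ⟨T.leaf true, fun x hx y hy => ?_, by simp [T.lv]⟩
          rw [hS] at hy; simp at hy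
        obtain ⟨b, R', S', hR', hS', hc1, hc2, hb⟩ := rect hF hD1 hl hD hd R S hR hS hRD
        have hsplit := dV_split (K := K) hR' hS' b hb
        have hβn : β ^ N ≤ β ^ (n + 1) := pow_le_pow_of_le_one (by linarith) hβ1 hn
        have hβnn : 0 ≤ β ^ n := pow_nonneg (by linarith) _
        have hβNN : 0 ≤ β ^ N := pow_nonneg (by linarith) _
        have hR0 : (0 : ℝ) ≤ R.card := by positivity
        have hS0 : (0 : ℝ) ≤ S.card := by positivity
        rcases le_or_gt (dV K F R' S) (2 ^ k) with hcase | hcase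
        · -- Alice speaks
          have g1 : Good F R' S (2 * (N + 1) ^ k) := by
            refine ih R' S ((dV_mono_left S hR').trans hRD) hcase (lt_of_le_of_lt ?_ hfuel)
            have : (R'.card : ℝ) ≤ R.card := by exact_mod_cast Finset.card_le_card hR'
            gcongr
          have g2 : Good F (R \ R') S (1 + n * (2 * (N + 1) ^ k)) := by
            refine ihn (by omega) (R \ R') S ((dV_mono_left S Finset.sdiff_subset).trans hRD)
              ((dV_mono_left S Finset.sdiff_subset).trans hRk) (lt_of_le_of_lt ?_ hfuel)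
            have e1 : ((R \ R').card : ℝ) = R.card - R'.card := by
              rw [Finset.card_sdiff_of_subset hR', Nat.cast_sub (Finset.card_le_card hR')]
            have e2 : (R.card : ℝ) ≤ 2 ^ (8 * (d + 1) * l) * R'.card := by exact_mod_cast hc1
            have e3 : (R.card : ℝ) * (1 / 2 ^ (8 * (d + 1) * l)) ≤ R'.card := by
              rw [mul_one_div, div_le_iff₀ (by positivity)]
              linarith
            have e4 : ((R \ R').card : ℝ) ≤ R.card * β := by
              rw [e1, hβ]; linarith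
            calc ((R \ R').card : ℝ) * S.card * β ^ n ≤ (R.card * β) * S.card * β ^ n := by gcongr
              _ = R.card * S.card * β ^ (n + 1) := by ring
          refine (good_al g1 g2).mono (le_of_eq ?_)
          ring
        · -- Bob speaks
          have hcase' : dV K F R S' ≤ 2 ^ k := by
            rw [pow_succ] at hRk
            omega
          have g1 : Good F R S' (2 * (N + 1) ^ k) := by
            refine ih R S' ((dV_mono_right R hS').trans hRD) hcase' (lt_of_le_of_lt ?_ hfuel)
            have : (S'.card : ℝ) ≤ S.card := by exact_mod_cast Finset.card_le_card hS'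
            gcongr
          have g2 : Good F R (S \ S') (1 + n * (2 * (N + 1) ^ k)) := by
            refine ihn (by omega) R (S \ S') ((dV_mono_right R Finset.sdiff_subset).trans hRD)
              ((dV_mono_right R Finset.sdiff_subset).trans hRk) (lt_of_le_of_lt ?_ hfuel)
            have e1 : ((S \ S').card : ℝ) = S.card - S'.card := by
              rw [Finset.card_sdiff_of_subset hS', Nat.cast_sub (Finset.card_le_card hS')]
            have e2 : (S.card : ℝ) ≤ 4 * S'.card := by exact_mod_cast hc2
            have e4 : ((S \ S').card : ℝ) ≤ S.card * β := by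
              rw [e1]; nlinarith
            calc (R.card : ℝ) * (S \ S').card * β ^ n ≤ R.card * (S.card * β) * β ^ n := by gcongr
              _ = R.card * S.card * β ^ (n + 1) := by ring
          refine (good_bo g1 g2).mono (le_of_eq ?_)
          ring
    intro R S hRD hRk hfuel
    refine (inner N le_rfl R S hRD hRk hfuel).mono ?_
    have h1 : 1 ≤ (N + 1) ^ k := Nat.one_le_pow _ _ (by omega)
    rw [pow_succ]
    nlinarith

end Pool.Agent.W926.LR
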