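import Pool.Agent.W926.LR.Build
import Pool.Agent.H630R2.LR.Bounds

/-!
Deterministic communication complexity, VC dimension and rank over any field (helper926).
-/

set_option autoImplicit false

namespace Pool.Agent.W926.LR

open Finset Pool.Agent.H630R2.LR

variable {X Y : Type} {K : Type} [Field K]

/-- The communication matrix over a field `K`. -/
def cm (K : Type) [Field K] (F : X → Y → Bool) : Matrix X Y K :=
  Matrix.of fun x y => if F x y then (1 : K) else 0

theorem dV_le_rank [Fintype X] [Fintype Y] (F : X → Y → Bool) (R : Finset X) (S : Finset Y) :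
    dV K F R S ≤ (cm K F).rank + 1 := by
  classical
  have h1 : dV K F R S ≤ dV K F Finset.univ Finset.univ :=
    (dV_mono_left S (Finset.subset_univ R)).trans (dV_mono_right _ (Finset.subset_univ S))
  refine h1.trans ?_
  have h2 : V K F Finset.univ Finset.univ ≤
      Submodule.span K (Set.range (cm K F).row) ⊔ Submodule.span K {(1 : Y → K)} := by
    unfold V
    rw [Submodule.span_le]
    have hres : ∀ v : Y → K, res K Finset.univ v = v := by
      intro v; funext y; simp [res_apply]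
    rintro v (⟨x, hx, rfl⟩ | hv)
    · apply Submodule.mem_sup_left
      apply Submodule.subset_span
      refine ⟨x, ?_⟩
      simp only [hres]
      rfl
    · rw [Set.mem_singleton_iff] at hv
      rw [hv, hres]
      exact Submodule.mem_sup_right (Submodule.mem_span_singleton_self _)
  refine (Submodule.finrank_mono h2).trans ?_
  refine (Submodule.finrank_add_le_finrank_add_finrank _ _).trans ?_
  rw [Matrix.rank_eq_finrank_span_row]
  have := finrank_span_le_card (R := K) ({(1 : Y → K)} : Set (Y → K))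
  have h3 : Module.finrank K (Submodule.span K {(1 : Y → K)}) ≤ 1 := by simpa using this
  omega

/-- few columns determine the rows -/
theorem exists_det [Fintype X] [Fintype Y] (F : X → Y → Bool) :
    ∃ B : Finset Y, B.card ≤ (cm K F).rank ∧
      ∀ x x', (∀ y ∈ B, F x y = F x' y) → F x = F x' := by
  classical
  obtain ⟨B, -, hB, hsp⟩ := exists_few (K := K) (Finset.univ : Finset Y)
    (fun y => (cm K F).col y) (cm K F).rank (by
      rw [Matrix.rank_eq_finrank_span_cols, Finset.coe_univ, Set.image_univ])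
  refine ⟨B, hB, fun x x' h => funext fun y => ?_⟩
  have h1 := hsp y (Finset.mem_univ y)
  have h2 : Submodule.span K ((fun y => (cm K F).col y) '' (B : Set Y)) ≤
      LinearMap.ker (LinearMap.proj (R := K) (φ := fun _ : X => K) x -
        LinearMap.proj (R := K) (φ := fun _ : X => K) x') := by
    rw [Submodule.span_le]
    rintro _ ⟨y', hy', rfl⟩
    rw [SetLike.mem_coe, LinearMap.mem_ker, LinearMap.sub_apply, LinearMap.proj_apply,
      LinearMap.proj_apply]
    have := h y' (by exact_mod_cast hy')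
    simp [Matrix.col, Matrix.transpose, cm, this]
  have h3 := h2 h1
  rw [LinearMap.mem_ker, LinearMap.sub_apply, LinearMap.proj_apply, LinearMap.proj_apply] at h3
  simp only [Matrix.col, Matrix.transpose, cm, Matrix.of_apply] at h3
  cases h4 : F x y <;> cases h5 : F x' y <;> simp [h4, h5] at h3 ⊢

theorem card_rows [Fintype X] [Fintype Y] (K : Type) [Field K] (F : X → Y → Bool) :
    ((Finset.univ : Finset X).image F).card ≤ 2 ^ (cm K F).rank := by
  classical
  obtain ⟨B, hB, hdet⟩ := exists_det (K := K) F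
  have h1 : ((Finset.univ : Finset X).image F).card ≤
      (Finset.univ : Finset (B → Bool)).card := by
    apply Finset.card_le_card_of_injOn (fun g => fun y : B => g y)
    · intro g _; exact Finset.mem_coe.2 (Finset.mem_univ _)
    · intro g hg g' hg' hgg
      rw [Finset.mem_coe, Finset.mem_image] at hg hg'
      obtain ⟨x, -, rfl⟩ := hg
      obtain ⟨x', -, rfl⟩ := hg'
      apply hdet
      intro y hy
      exact congrFun hgg ⟨y, hy⟩
  refine h1.trans ?_
  rw [Finset.card_univ, Fintype.card_fun, Fintype.card_bool, Fintype.card_coe]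
  exact Nat.pow_le_pow_right (by norm_num) hB

theorem vc_rank [Fintype X] [Fintype Y] (K : Type) [Field K] (F : X → Y → Bool) :
    VCle F (cm K F).rank := by
  classical
  intro A hA
  have h1 : (Finset.univ : Finset (A → Bool)).card ≤ ((Finset.univ : Finset X).image F).card := by
    apply Finset.card_le_card_of_surjOn (fun g => fun y : A => g y)
    intro p _
    obtain ⟨x, hx⟩ := hA (fun y => if h : y ∈ A then p ⟨y, h⟩ else false)
    refine ⟨F x, by simp, ?_⟩
    funext y
    have := hx y y.2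
    simpa using this
  have h2 := h1.trans (card_rows K F)
  rw [Finset.card_univ, Fintype.card_fun, Fintype.card_bool, Fintype.card_coe] at h2
  exact (Nat.pow_le_pow_iff_right (by norm_num)).1 h2

/-- representatives of the rows -/
theorem exists_rep [Fintype X] [Fintype Y] (K : Type) [Field K] (F : X → Y → Bool) :
    ∃ (ρ : X → X) (R : Finset X), (∀ x, ρ x ∈ R) ∧ (∀ x, F (ρ x) = F x) ∧
      R.card ≤ 2 ^ (cm K F).rank := by
  classical
  rcases isEmpty_or_nonempty X with hX | ⟨⟨x0⟩⟩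
  · exact ⟨id, ∅, fun x => isEmptyElim x, fun x => isEmptyElim x, by simp⟩
  · let c : (Y → Bool) → X := fun g => if h : ∃ x, F x = g then h.choose else x0
    have hc : ∀ x, F (c (F x)) = F x := by
      intro x
      have h : ∃ x', F x' = F x := ⟨x, rfl⟩
      simp only [c, dif_pos h]
      exact h.choose_spec
    refine ⟨fun x => c (F x), ((Finset.univ : Finset X).image F).image c, ?_, hc,
      Finset.card_image_le.trans (card_rows K F)⟩
    intro x
    exact Finset.mem_image_of_mem _ (Finset.mem_image_of_mem _ (Finset.mem_univ _))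

theorem rank_swap [Fintype X] [Fintype Y] (K : Type) [Field K] (F : X → Y → Bool) :
    (cm K (fun y x => F x y)).rank = (cm K F).rank := by
  rw [← Matrix.rank_transpose (cm K F)]
  rfl

theorem beta_lt (U r : ℕ) :
    ((2 : ℝ) ^ r * 2 ^ r) * (1 - 1 / 2 ^ U) ^ (2 ^ U * (2 * r + 1)) < 1 := by
  have h1 : ((1 : ℝ) - 1 / 2 ^ U) ^ (2 ^ U) ≤ 1 / 2 := by
    have h := bernoulli (2 ^ U) Nat.one_le_two_pow
    have h2 : (2 : ℝ) * ((2 : ℝ) ^ U - 1) ^ (2 ^ U) ≤ ((2 : ℝ) ^ U) ^ (2 ^ U) := by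
      have h3 : (((2 * (2 ^ U - 1) ^ (2 ^ U) : ℕ)) : ℝ) ≤ (((2 ^ U) ^ (2 ^ U) : ℕ) : ℝ) := by
        exact_mod_cast h
      push_cast [Nat.cast_sub (Nat.one_le_two_pow (n := U))] at h3
      exact h3
    have h4 : (1 : ℝ) - 1 / 2 ^ U = (2 ^ U - 1) / 2 ^ U := by
      rw [sub_div, div_self (by positivity)]
    rw [h4, div_pow, div_le_div_iff₀ (by positivity) (by norm_num)]
    linarith
  have h0 : (0 : ℝ) ≤ (1 - 1 / 2 ^ U) ^ (2 ^ U) := by
    apply pow_nonneg
    have : (1 : ℝ) / 2 ^ U ≤ 1 := by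
      rw [div_le_one (by positivity)]
      exact one_le_pow₀ (by norm_num)
    linarith
  calc ((2 : ℝ) ^ r * 2 ^ r) * (1 - 1 / 2 ^ U) ^ (2 ^ U * (2 * r + 1))
      = ((2 : ℝ) ^ r * 2 ^ r) * ((1 - 1 / 2 ^ U) ^ (2 ^ U)) ^ (2 * r + 1) := by rw [pow_mul]
    _ ≤ ((2 : ℝ) ^ r * 2 ^ r) * (1 / 2) ^ (2 * r + 1) := by gcongr
    _ = 1 / 2 := by
      rw [pow_succ, pow_mul, ← pow_add, ← two_mul, pow_mul]
      have : ((2 : ℝ) ^ 2) ^ r * (((1 / 2) ^ 2) ^ r * (1 / 2)) =
          ((2 : ℝ) ^ 2 * (1 / 2) ^ 2) ^ r * (1 / 2) := by rw [mul_pow]; ring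
      rw [this]
      norm_num
    _ < 1 := by norm_num

/-- the cost in terms of `d` and `k = ⌈log₂ (r + 1)⌉` -/
def cost (d k : ℕ) : ℕ := 4 * (1 + (8 * (d + 1) * (k + 2) + 1 + k) * k) + 15

/-- The protocol. -/
theorem proto_vc [Fintype X] [Fintype Y] (K : Type) [Field K] (F : X → Y → Bool) (d : ℕ)
    (hF : VCle F d) : Proto F (cost d (Nat.clog 2 ((cm K F).rank + 1))) := by
  classical
  set r := (cm K F).rank with hr
  set k := Nat.clog 2 (r + 1) with hk
  have hrk : r + 1 ≤ 2 ^ k := Nat.le_pow_clog (by norm_num) _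
  set d' := min d r with hd'
  have hF' : VCle F d' := fun A hA => le_min (hF A hA) (vc_rank K F A hA)
  obtain ⟨ρ, R, hρR, hρ, hRc⟩ := exists_rep K F
  obtain ⟨σ, S, hσS, hσ, hSc⟩ := exists_rep K (fun y x => F x y)
  rw [rank_swap] at hSc
  rw [← hr] at hRc hSc
  set U := 8 * (d' + 1) * (k + 2) with hU
  have hgood : Good F R S (2 * (2 ^ U * (2 * r + 1) + 1) ^ k) := by
    refine levels (K := K) hF' (D := r + 1) (l := k + 2) (by omega) (by omega) ?_ ?_
      (1 - 1 / 2 ^ U) rfl (2 ^ U * (2 * r + 1)) k R S (dV_le_rank F R S)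
      ((dV_le_rank F R S).trans hrk) ?_
    · rw [pow_add]; omega
    · have : d' ≤ r := min_le_right _ _
      rw [pow_add]; omega
    · refine lt_of_le_of_lt ?_ (beta_lt U r)
      have h1 : (R.card : ℝ) ≤ 2 ^ r := by exact_mod_cast hRc
      have h2 : (S.card : ℝ) ≤ 2 ^ r := by exact_mod_cast hSc
      have h3 : (0 : ℝ) ≤ (1 - 1 / 2 ^ U) ^ (2 ^ U * (2 * r + 1)) := by
        apply pow_nonneg
        have : (1 : ℝ) / 2 ^ U ≤ 1 := by
          rw [div_le_one (by positivity)]
          exact one_le_pow₀ (by norm_num)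
        linarith
      gcongr
  obtain ⟨t, ht, htl⟩ := hgood
  have hle : t.lv ≤ 2 ^ (1 + (U + 1 + k) * k) := by
    refine htl.trans ?_
    rw [pow_add, pow_one, pow_mul 2 (U + 1 + k) k]
    apply Nat.mul_le_mul_left
    apply Nat.pow_le_pow_left
    have h1 : 1 ≤ 2 ^ U := Nat.one_le_two_pow
    calc 2 ^ U * (2 * r + 1) + 1 ≤ 2 ^ U * (2 * r + 1) + 2 ^ U := by omega
      _ = 2 ^ U * 2 * (r + 1) := by ring
      _ ≤ 2 ^ U * 2 * 2 ^ k := Nat.mul_le_mul_left _ hrk
      _ = 2 ^ (U + 1 + k) := by rw [pow_add, pow_add, pow_one]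
  have hp := T.balance _ t hle
  have hp2 := hp.comap ρ σ
  have e : (fun x y => t.ev (ρ x) (σ y)) = F := by
    funext x y
    rw [ht _ (hρR x) _ (hσS y), hρ x]
    exact congrFun (hσ y) x
  rw [e] at hp2
  refine hp2.mono ?_
  unfold cost
  have h5 : d' ≤ d := min_le_left _ _
  have h6 : U ≤ 8 * (d + 1) * (k + 2) := by
    rw [hU]; gcongr
  gcongr

theorem cost_le (d r : ℕ) :
    ((cost d (Nat.clog 2 (r + 1)) : ℕ) : ℝ) ≤ 307 * ((d : ℝ) + 1) * (Real.logb 2 r + 1) ^ 2 := by
  have hk : (Nat.clog 2 (r + 1) : ℝ) ≤ Real.logb 2 r + 2 := by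
    rcases Nat.eq_zero_or_pos r with rfl | hr
    · simp
    · have h1 := clog_le (r + 1)
      have h2 : Real.logb 2 ((r + 1 : ℕ) : ℝ) ≤ Real.logb 2 r + 1 := by
        have h3 : Real.logb 2 (2 * r : ℝ) = Real.logb 2 r + 1 := by
          rw [Real.logb_mul (by norm_num) (by positivity), Real.logb_self_eq_one (by norm_num)]
          ring
        rw [← h3]
        apply Real.logb_le_logb_of_le (by norm_num) (by positivity)
        push_cast
        have : (1 : ℝ) ≤ r := by exact_mod_cast hr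
        linarith
      linarith
  have hl := logb_nonneg r
  set k : ℝ := (Nat.clog 2 (r + 1) : ℝ) with hkdef
  set L := Real.logb 2 (r : ℝ) with hL
  have hk0 : 0 ≤ k := by positivity
  have e : ((cost d (Nat.clog 2 (r + 1)) : ℕ) : ℝ) =
      4 * (1 + (8 * ((d : ℝ) + 1) * (k + 2) + 1 + k) * k) + 15 := by
    unfold cost; push_cast; rfl
  rw [e]
  have hd : (0 : ℝ) ≤ d := by positivity
  have h1 : (8 * ((d : ℝ) + 1) * (k + 2) + 1 + k) ≤ 9 * (d + 1) * (k + 2) := by nlinarith
  have h2 : (8 * ((d : ℝ) + 1) * (k + 2) + 1 + k) * k ≤ 9 * (d + 1) * (k + 2) * k :=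
    mul_le_mul_of_nonneg_right h1 hk0
  have h3 : (k + 2) * k ≤ 8 * (L + 1) ^ 2 := by
    have h4 : (k + 2) * k ≤ (L + 4) * (L + 2) := by
      apply mul_le_mul (by linarith) hk hk0 (by linarith)
    nlinarith
  have h5 : 9 * ((d : ℝ) + 1) * (k + 2) * k ≤ 72 * (d + 1) * (L + 1) ^ 2 := by
    have h6 : (0 : ℝ) ≤ 9 * (d + 1) := by positivity
    calc 9 * ((d : ℝ) + 1) * (k + 2) * k = 9 * (d + 1) * ((k + 2) * k) := by ring
      _ ≤ 9 * (d + 1) * (8 * (L + 1) ^ 2) := mul_le_mul_of_nonneg_left h3 h6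
      _ = _ := by ring
  have h7 : (19 : ℝ) ≤ 19 * ((d + 1) * (L + 1) ^ 2) := by
    have : (1 : ℝ) ≤ (d + 1) * (L + 1) ^ 2 := by nlinarith [mul_nonneg hd (sq_nonneg (L + 1))]
    linarith
  nlinarith

/-- **Main bound.** -/
theorem main [Fintype X] [Fintype Y] (K : Type) [Field K] (F : X → Y → Bool) (d : ℕ)
    (hF : VCle F d) :
    ∃ c : ℕ, Proto F c ∧
      (c : ℝ) ≤ 307 * ((d : ℝ) + 1) * (Real.logb 2 ((cm K F).rank : ℝ) + 1) ^ 2 :=
  ⟨_, proto_vc K F d hF, cost_le d _⟩

theorem main_cols [Fintype X] [Fintype Y] (K : Type) [Field K] (F : X → Y → Bool) (d : ℕ)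
    (hF : VCle (fun y x => F x y) d) :
    ∃ c : ℕ, Proto F c ∧
      (c : ℝ) ≤ 307 * ((d : ℝ) + 1) * (Real.logb 2 ((cm K F).rank : ℝ) + 1) ^ 2 := by
  obtain ⟨c, h1, h2⟩ := main K (fun y x => F x y) d hF
  rw [rank_swap] at h2
  exact ⟨c, h1.swap, h2⟩

end Pool.Agent.W926.LR
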