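import Pool.Agent.W926.LR.Final

/-!
Omitted patterns and VC dimension (helper926).
-/

set_option autoImplicit false

namespace Pool.Agent.W926.LR

open Finset Pool.Agent.H630R2.LR

variable {X Y : Type}

/-- `P` is a submatrix of `F` (up to the order of the rows and of the columns). -/
def Cont {k l : ℕ} (F : X → Y → Bool) (P : Fin k → Fin l → Bool) : Prop :=
  ∃ (a : Fin k ↪ X) (b : Fin l ↪ Y), ∀ i j, F (a i) (b j) = P i j

/-- A shattered set of `l + ⌈log₂ k⌉` columns gives every `k × l` pattern. -/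
theorem cont_of_shat {k l : ℕ} (F : X → Y → Bool) (P : Fin k → Fin l → Bool) (A : Finset Y)
    (hA : Shat F A) (hcard : l + Nat.clog 2 k ≤ A.card) : Cont F P := by
  classical
  obtain ⟨w, hw⟩ : ∃ w, w = Nat.clog 2 k := ⟨_, rfl⟩
  rw [← hw] at hcard
  have hkw : k ≤ 2 ^ w := by rw [hw]; exact Nat.le_pow_clog (by norm_num) _
  have h1 : Fintype.card (Fin l ⊕ Fin w) ≤ Fintype.card A := by
    rw [Fintype.card_sum, Fintype.card_fin, Fintype.card_fin, Fintype.card_coe]
    exact hcard
  obtain ⟨e⟩ := Function.Embedding.nonempty_of_card_le h1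
  have h2 : Fintype.card (Fin k) ≤ Fintype.card (Fin w → Bool) := by
    rw [Fintype.card_fin, Fintype.card_fun, Fintype.card_bool, Fintype.card_fin]
    exact hkw
  obtain ⟨code⟩ := Function.Embedding.nonempty_of_card_le h2
  have hrow : ∀ i : Fin k, ∃ x, (∀ j, F x (e (Sum.inl j)) = P i j) ∧
      ∀ s, F x (e (Sum.inr s)) = code i s := by
    intro i
    obtain ⟨x, hx⟩ := hA (fun y => if h : ∃ z, (e z : Y) = y then
      Sum.elim (P i) (code i) h.choose else false)
    have key : ∀ z, F x (e z) = Sum.elim (P i) (code i) z := by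
      intro z
      rw [hx _ (e z).2]
      have h : ∃ z', (e z' : Y) = e z := ⟨z, rfl⟩
      rw [dif_pos h]
      have := h.choose_spec
      rw [e.injective (Subtype.ext this)]
    exact ⟨x, fun j => key (Sum.inl j), fun s => key (Sum.inr s)⟩
  choose r hr1 hr2 using hrow
  refine ⟨⟨r, fun i i' h => ?_⟩, ⟨fun j => (e (Sum.inl j) : Y), fun j j' h => ?_⟩,
    fun i j => hr1 i j⟩
  · apply code.injective
    funext s
    rw [← hr2 i s, ← hr2 i' s, h]
  · have := e.injective (Subtype.ext h)
    exact Sum.inl_injective this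

theorem omit_rows [Fintype X] [Fintype Y] (K : Type) [Field K] (F : X → Y → Bool) {k l : ℕ}
    (P : Fin k → Fin l → Bool) (hP : ¬ Cont F P) :
    ∃ c : ℕ, Proto F c ∧
      (c : ℝ) ≤ 307 * ((l + Nat.clog 2 k : ℕ) : ℝ) * (Real.logb 2 ((cm K F).rank : ℝ) + 1) ^ 2 := by
  classical
  rcases Nat.eq_zero_or_pos (l + Nat.clog 2 k) with h0 | h0
  · refine ⟨0, ?_, ?_⟩
    · have hX : IsEmpty X := by
        by_contra hne
        rw [not_isEmpty_iff] at hne
        obtain ⟨x⟩ := hne
        apply hP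
        apply cont_of_shat F P ∅ (fun p => ⟨x, fun y hy => by simp at hy⟩)
        omega
      exact Proto.const F true fun x => isEmptyElim x
    · rw [h0]
      simp
  · obtain ⟨c, h1, h2⟩ := main K F (l + Nat.clog 2 k - 1) (fun A hA => by
      by_contra hcon
      exact hP (cont_of_shat F P A hA (by omega)))
    refine ⟨c, h1, h2.trans (le_of_eq ?_)⟩
    rw [Nat.cast_sub h0]
    push_cast
    ring

theorem omit_min [Fintype X] [Fintype Y] (K : Type) [Field K] (F : X → Y → Bool) {k l : ℕ}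
    (P : Fin k → Fin l → Bool) (hP : ¬ Cont F P) :
    ∃ c : ℕ, Proto F c ∧
      (c : ℝ) ≤ 307 * ((min (l + Nat.clog 2 k) (k + Nat.clog 2 l) : ℕ) : ℝ) *
        (Real.logb 2 ((cm K F).rank : ℝ) + 1) ^ 2 := by
  rcases le_total (l + Nat.clog 2 k) (k + Nat.clog 2 l) with h | h
  · rw [min_eq_left h]
    exact omit_rows K F P hP
  · rw [min_eq_right h]
    obtain ⟨c, h1, h2⟩ := omit_rows K (fun y x => F x y) (fun j i => P i j) (fun hc => by
      obtain ⟨a, b, hab⟩ := hc
      exact hP ⟨b, a, fun i j => hab j i⟩)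
    rw [rank_swap] at h2
    exact ⟨c, h1.swap, h2⟩

end Pool.Agent.W926.LR
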