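import Pool.Agent.H630R2.LR.M1

/-!
Protocol trees and their rebalancing (helper926).
-/

set_option autoImplicit false

namespace Pool.Agent.W926.LR

open Pool.Agent.H630R2.LR

/-- Protocol trees. -/
inductive T (X Y : Type) : Type
  | leaf : Bool → T X Y
  | al : (X → Bool) → T X Y → T X Y → T X Y
  | bo : (Y → Bool) → T X Y → T X Y → T X Y

namespace T

variable {X Y : Type}

/-- The function computed by a tree. -/
def ev : T X Y → X → Y → Bool
  | leaf b, _, _ => b
  | al f t0 t1, x, y => if f x then t1.ev x y else t0.ev x y
  | bo g t0 t1, x, y => if g y then t1.ev x y else t0.ev x y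

/-- The number of leaves. -/
def lv : T X Y → ℕ
  | leaf _ => 1
  | al _ a b => a.lv + b.lv
  | bo _ a b => a.lv + b.lv

theorem lv_pos : ∀ t : T X Y, 1 ≤ t.lv
  | leaf _ => le_rfl
  | al _ a b => by have := lv_pos a; simp only [lv]; omega
  | bo _ a b => by have := lv_pos a; simp only [lv]; omega

/-- The trivial bound. -/
theorem proto_lv : ∀ (t : T X Y) (c : ℕ), t.lv ≤ c + 1 → Proto t.ev c
  | leaf b, c, _ => (Proto.const _ b fun _ _ => rfl).mono (Nat.zero_le _)
  | al f a b, c, h => by
      have ha := lv_pos a
      have hb := lv_pos b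
      simp only [lv] at h
      obtain ⟨c', rfl⟩ : ∃ c', c = c' + 1 := ⟨c - 1, by omega⟩
      refine Proto.alice _ f (fun v => if v then b.ev else a.ev) c' (fun v => ?_) (fun x y => ?_)
      · cases v
        · exact proto_lv a c' (by omega)
        · exact proto_lv b c' (by omega)
      · cases h : f x <;> simp [ev, h]
  | bo g a b, c, h => by
      have ha := lv_pos a
      have hb := lv_pos b
      simp only [lv] at h
      obtain ⟨c', rfl⟩ : ∃ c', c = c' + 1 := ⟨c - 1, by omega⟩
      refine Proto.bob _ g (fun v => if v then b.ev else a.ev) c' (fun v => ?_) (fun x y => ?_)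
      · cases v
        · exact proto_lv a c' (by omega)
        · exact proto_lv b c' (by omega)
      · cases h : g y <;> simp [ev, h]

/-- A node whose subtree has between `K / 2` and `K` leaves. -/
theorem split : ∀ (t : T X Y) (K : ℕ), 1 ≤ K → K < t.lv →
    ∃ (f : X → Bool) (g : Y → Bool) (s t' : T X Y),
      (∀ x y, t.ev x y = if (f x && g y) then s.ev x y else t'.ev x y) ∧
      s.lv ≤ K ∧ K < 2 * s.lv ∧ t'.lv + s.lv = t.lv + 1
  | leaf b, K, hK, h => by simp only [lv] at h; omega
  | al f a b, K, hK, h => by
      simp only [lv] at h ⊢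
      rcases le_total a.lv b.lv with hab | hab
      · by_cases hb : b.lv ≤ K
        · refine ⟨f, fun _ => true, b, al f a (leaf true), fun x y => ?_, hb, by omega, ?_⟩
          · cases hf : f x <;> simp [ev, hf]
          · simp only [lv]; omega
        · obtain ⟨f', g', s, t', h1, h2, h3, h4⟩ := split b K hK (by omega)
          refine ⟨fun x => f x && f' x, g', s, al f a t', fun x y => ?_, h2, h3, ?_⟩
          · cases hf : f x <;> simp [ev, hf, h1]
          · simp only [lv]; omega
      · by_cases ha : a.lv ≤ K
        · refine ⟨fun x => !f x, fun _ => true, a, al f (leaf true) b, fun x y => ?_, ha,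
            by omega, ?_⟩
          · cases hf : f x <;> simp [ev, hf]
          · simp only [lv]; omega
        · obtain ⟨f', g', s, t', h1, h2, h3, h4⟩ := split a K hK (by omega)
          refine ⟨fun x => !f x && f' x, g', s, al f t' b, fun x y => ?_, h2, h3, ?_⟩
          · cases hf : f x <;> simp [ev, hf, h1]
          · simp only [lv]; omega
  | bo g a b, K, hK, h => by
      simp only [lv] at h ⊢
      rcases le_total a.lv b.lv with hab | hab
      · by_cases hb : b.lv ≤ K
        · refine ⟨fun _ => true, g, b, bo g a (leaf true), fun x y => ?_, hb, by omega, ?_⟩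
          · cases hf : g y <;> simp [ev, hf]
          · simp only [lv]; omega
        · obtain ⟨f', g', s, t', h1, h2, h3, h4⟩ := split b K hK (by omega)
          refine ⟨f', fun y => g y && g' y, s, bo g a t', fun x y => ?_, h2, h3, ?_⟩
          · cases hf : g y <;> simp [ev, hf, h1]
          · simp only [lv]; omega
      · by_cases ha : a.lv ≤ K
        · refine ⟨fun _ => true, fun y => !g y, a, bo g (leaf true) b, fun x y => ?_, ha,
            by omega, ?_⟩
          · cases hf : g y <;> simp [ev, hf]
          · simp only [lv]; omega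
        · obtain ⟨f', g', s, t', h1, h2, h3, h4⟩ := split a K hK (by omega)
          refine ⟨f', fun y => !g y && g' y, s, bo g t' b, fun x y => ?_, h2, h3, ?_⟩
          · cases hf : g y <;> simp [ev, hf, h1]
          · simp only [lv]; omega

/-- One step of the rebalancing. -/
theorem step (a b c : ℕ) (ha : 1 ≤ a) (hab : 2 * b + 1 ≤ 3 * a)
    (h : ∀ t : T X Y, t.lv ≤ a → Proto t.ev c) :
    ∀ t : T X Y, t.lv ≤ b → Proto t.ev (c + 2) := by
  intro t ht
  by_cases hta : t.lv ≤ a
  · exact (h t hta).mono (by omega)
  · obtain ⟨f, g, s, t', h1, h2, h3, h4⟩ := split t a ha (by omega)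
    refine Proto.alice _ f (fun v x y => if (v && g y) then s.ev x y else t'.ev x y) (c + 1)
      (fun v => ?_) (fun x y => h1 x y)
    refine Proto.bob _ g (fun w x y => if (v && w) then s.ev x y else t'.ev x y) c
      (fun w => ?_) (fun x y => rfl)
    cases hvw : (v && w)
    · simpa using h t' (by omega)
    · simpa using h s h2

/-- A tree with at most `2 ^ m` leaves gives a protocol of cost `4 m + 15`. -/
theorem balance : ∀ (m : ℕ) (t : T X Y), t.lv ≤ 2 ^ m → Proto t.ev (4 * m + 15) := by
  have key : ∀ m : ℕ, ∀ t : T X Y, t.lv ≤ 2 ^ (m + 4) → Proto t.ev (4 * m + 15) := by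
    intro m
    induction m with
    | zero =>
      intro t ht
      exact proto_lv t _ (by simpa using ht)
    | succ m ih =>
      have hp : 1 ≤ 2 ^ m := Nat.one_le_two_pow
      have e1 : 2 ^ (m + 4) = 16 * 2 ^ m := by ring
      have e2 : 2 ^ (m + 1 + 4) = 32 * 2 ^ m := by ring
      have s1 := step (X := X) (Y := Y) (2 ^ (m + 4)) (22 * 2 ^ m) (4 * m + 15) (by omega) (by omega) ih
      have s2 := step (X := X) (Y := Y) (22 * 2 ^ m) (2 ^ (m + 1 + 4)) (4 * m + 15 + 2) (by omega)
        (by omega) s1
      intro t ht
      exact (s2 t ht).mono (by omega)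
  intro m t ht
  refine (key m t (ht.trans ?_))
  exact Nat.pow_le_pow_right (by norm_num) (by omega)

end T

end Pool.Agent.W926.LR
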